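import Pool.Agent.LeoG.UpStmts

/-!
# LEOG, module LD5: forms modulo `p²` with nonzero discriminant, `p` prime to 6
-/

set_option autoImplicit false

open IsDedekindDomain NumberField

noncomputable section

namespace Pool.Agent.LeoG.H9

open Pool.Agent.LeoK (Q4 qM fM np)

/-- multiplication of the two middle coefficients by an invertible element -/
def scl {A : Type} [CommRing A] (t s : A) (h : t * s = 1) : Q4 A ≃ Q4 A where
  toFun v := ![v 0, t * v 1, t * v 2, v 3]
  invFun v := ![v 0, s * v 1, s * v 2, v 3]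
  left_inv v := by
    funext i
    fin_cases i
    · rfl
    · change s * (t * v 1) = v 1
      linear_combination v 1 * h
    · change s * (t * v 2) = v 2
      linear_combination v 2 * h
    · rfl
  right_inv v := by
    funext i
    fin_cases i
    · rfl
    · change t * (s * v 1) = v 1
      linear_combination v 1 * h
    · change t * (s * v 2) = v 2
      linear_combination v 2 * h
    · rfl

theorem dsc_scl {A : Type} [CommRing A] (t : A) (h : t * 3 = 1) (v : Q4 A) :
    dsc v = 27 * qM (scl t 3 h v) := by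
  have e0 : scl t 3 h v 0 = v 0 := rfl
  have e1 : scl t 3 h v 1 = t * v 1 := rfl
  have e2 : scl t 3 h v 2 = t * v 2 := rfl
  have e3 : scl t 3 h v 3 = v 3 := rfl
  unfold dsc qM fM
  rw [e0, e1, e2, e3]
  have h1 : v 1 = 3 * (t * v 1) := by linear_combination -v 1 * h
  have h2 : v 2 = 3 * (t * v 2) := by linear_combination -v 2 * h
  generalize t * v 1 = b at *
  generalize t * v 2 = c at *
  rw [h1, h2]
  unfold LeoK.fP LeoK.fQ LeoK.fR
  ring

theorem unit27 {A : Type} [CommRing A] {t : A} (h : t * 3 = 1) (x : A) : 27 * x ≠ 0 ↔ x ≠ 0 := by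
  constructor
  · rintro h1 rfl
    exact h1 (mul_zero _)
  · intro h1 h2
    apply h1
    have : t ^ 3 * (27 * x) = x := by
      have e : t ^ 3 * 27 = 1 := by
        calc t ^ 3 * 27 = (t * 3) ^ 3 := by ring
          _ = 1 := by rw [h, one_pow]
      linear_combination x * e
    rw [← this, h2, mul_zero]

/-- LD5 -/
theorem ld5 (h5 : LeoK.Ld5Stmt) : Ld5Stmt := by
  intro k _ _ p hp
  have h3 : (3 : 𝓞 k) ∉ p.asIdeal := by
    intro h
    apply hp
    have : (6 : 𝓞 k) = 2 * 3 := by norm_num
    rw [this]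
    exact Ideal.mul_mem_left _ _ h
  have hmax : p.asIdeal.IsMaximal := p.isMaximal
  have hco : IsCoprime (Ideal.span {(3 : 𝓞 k)}) p.asIdeal := by
    rw [Ideal.isCoprime_iff_sup_eq]
    by_contra hne
    have hle : p.asIdeal ≤ Ideal.span {(3 : 𝓞 k)} ⊔ p.asIdeal := le_sup_right
    have := hmax.eq_of_le hne hle
    apply h3
    rw [this]
    exact Ideal.mem_sup_left (Ideal.mem_span_singleton_self _)
  have hco2 : IsCoprime (Ideal.span {(3 : 𝓞 k)}) (p.asIdeal ^ 2) := hco.pow_right
  rw [Ideal.isCoprime_iff_exists] at hco2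
  obtain ⟨x, hx, y, hy, hxy⟩ := hco2
  obtain ⟨a, rfl⟩ := Ideal.mem_span_singleton'.1 hx
  have ht : Ideal.Quotient.mk (p.asIdeal ^ 2) a * 3 = 1 := by
    have h1 := congrArg (Ideal.Quotient.mk (p.asIdeal ^ 2)) hxy
    rw [map_add, map_mul, Ideal.Quotient.eq_zero_iff_mem.2 hy, add_zero, map_one] at h1
    rw [← h1]
    rfl
  rw [← h5 k p hp]
  congr 1
  apply Nat.card_congr
  refine (scl _ 3 ht).subtypeEquiv ?_
  intro v
  rw [dsc_scl _ ht v, unit27 ht]

end Pool.Agent.LeoG.H9
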